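import Mathlib
import Pool.Agent.LeoK.UpStmts

/-!
# CON: properties of the cone
-/

set_option autoImplicit false

open NumberField IsDedekindDomain Module MeasureTheory Filter Topology

open scoped Pointwise

namespace Pool.Agent.LeoK.H91

section general

variable {σ : Type} [Fintype σ]

theorem gm_pow [Nonempty σ] (x : σ → ℝ) (hx : ∀ s, 0 < x s) :
    ((∏ s, x s) ^ (1 / (Fintype.card σ : ℝ))) ^ Fintype.card σ = ∏ s, x s := by
  have h0 : 0 < ∏ s, x s := Finset.prod_pos fun s _ => hx s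
  rw [one_div, Real.rpow_inv_natCast_pow h0.le Fintype.card_ne_zero]

theorem exists_le_gm [Nonempty σ] (x : σ → ℝ) (hx : ∀ s, 0 < x s) :
    ∃ s, x s ≤ (∏ s, x s) ^ (1 / (Fintype.card σ : ℝ)) := by
  by_contra h
  push Not at h
  have h0 : 0 < ∏ s, x s := Finset.prod_pos fun s _ => hx s
  have h1 : 0 < (∏ s, x s) ^ (1 / (Fintype.card σ : ℝ)) := Real.rpow_pos_of_pos h0 _
  have h2 : ∏ _s : σ, (∏ s, x s) ^ (1 / (Fintype.card σ : ℝ)) < ∏ s, x s :=
    Finset.prod_lt_prod_of_nonempty (fun s _ => h1) (fun s _ => h s) Finset.univ_nonempty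
  rw [Finset.prod_const, Finset.card_univ, gm_pow x hx] at h2
  exact lt_irrefl _ h2

theorem exists_gm_le [Nonempty σ] (x : σ → ℝ) (hx : ∀ s, 0 < x s) :
    ∃ s, (∏ s, x s) ^ (1 / (Fintype.card σ : ℝ)) ≤ x s := by
  by_contra h
  push Not at h
  have h2 : ∏ s, x s < ∏ _s : σ, (∏ s, x s) ^ (1 / (Fintype.card σ : ℝ)) :=
    Finset.prod_lt_prod_of_nonempty (fun s _ => hx s) (fun s _ => h s) Finset.univ_nonempty
  rw [Finset.prod_const, Finset.card_univ, gm_pow x hx] at h2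
  exact lt_irrefl _ h2

theorem cube_volume : volume (Set.pi Set.univ fun _ : σ => Set.Ioo (0 : ℝ) 1) = 1 := by
  rw [Real.volume_pi_Ioo]
  simp

/-- A null set has null preimage under the multiplication by a vector without zero coordinate. -/
theorem null_preimage_mul (v : σ → ℝ) (hv : ∀ s, v s ≠ 0) (S : Set (σ → ℝ)) (hS : volume S = 0) :
    volume {x : σ → ℝ | v * x ∈ S} = 0 := by
  classical
  have hdet : LinearMap.det (LinearMap.mulLeft ℝ v) ≠ 0 := by
    have h : LinearMap.mulLeft ℝ v * LinearMap.mulLeft ℝ v⁻¹ = 1 := by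
      ext x s
      simp [hv]
    have h2 := congrArg LinearMap.det h
    rw [map_mul, map_one] at h2
    intro h0
    rw [h0, zero_mul] at h2
    exact zero_ne_one h2
  have h := Measure.addHaar_preimage_linearMap (volume : Measure (σ → ℝ)) hdet S
  rw [hS, mul_zero] at h
  exact h

end general

variable {k : Type} [Field k] [NumberField k]

/-- The truncated cone. -/
def FT (Φ : Frame k) (T : ℝ) : Set (Sg k → ℝ) := Φ.F ∩ {x | ∏ s, x s ≤ T}

theorem D_pos (Φ : Frame k) : 0 < Φ.D := by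
  unfold Frame.D
  apply ENNReal.toReal_pos
  · exact ZSpan.measure_fundamentalDomain_ne_zero Φ.B
  · exact (ZSpan.fundamentalDomain_isBounded Φ.B).measure_lt_top.ne

theorem nonempty_Sg (h : Fintype.card (Sg k) = finrank ℚ k) : Nonempty (Sg k) := by
  apply Fintype.card_pos_iff.mp
  rw [h]
  exact finrank_pos

theorem F_nonempty (Φ : Frame k) : Φ.F.Nonempty := by
  obtain ⟨η, h⟩ := Φ.exi (fun _ => 1) (fun _ => one_pos)
  exact ⟨_, h⟩

theorem one_le_cF (Φ : Frame k) (h : Fintype.card (Sg k) = finrank ℚ k) : 1 ≤ Φ.cF := by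
  obtain ⟨s⟩ := nonempty_Sg h
  obtain ⟨x, hx⟩ := F_nonempty Φ
  have h1 := Φ.cmp x hx s s
  have h2 := Φ.pos x hx s
  by_contra h3
  push Not at h3
  nlinarith

theorem cone_cmp (Φ : Frame k) (h : Fintype.card (Sg k) = finrank ℚ k) (x : Sg k → ℝ)
    (hx : x ∈ Φ.F) (s : Sg k) :
    x s ≤ Φ.cF * (∏ s', x s') ^ (1 / finrank ℚ k : ℝ) ∧
      (∏ s', x s') ^ (1 / finrank ℚ k : ℝ) ≤ Φ.cF * x s := by
  have := nonempty_Sg h
  rw [← h]
  have hc := one_le_cF Φ h
  obtain ⟨s1, h1⟩ := exists_le_gm x (Φ.pos x hx)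
  obtain ⟨s2, h2⟩ := exists_gm_le x (Φ.pos x hx)
  refine ⟨(Φ.cmp x hx s s1).trans ?_, h2.trans (Φ.cmp x hx s2 s)⟩
  exact mul_le_mul_of_nonneg_left h1 (by linarith)

theorem FT_bounded (Φ : Frame k) (h : Fintype.card (Sg k) = finrank ℚ k) (T : ℝ) :
    Bornology.IsBounded (FT Φ T) := by
  apply (Metric.isBounded_Icc (0 : Sg k → ℝ)
    (fun _ => Φ.cF * T ^ (1 / finrank ℚ k : ℝ))).subset
  intro x hx
  have hc := one_le_cF Φ h
  have h0 : 0 < ∏ s, x s := Finset.prod_pos fun s _ => Φ.pos x hx.1 s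
  refine ⟨fun s => (Φ.pos x hx.1 s).le, fun s => ?_⟩
  refine (cone_cmp Φ h x hx.1 s).1.trans ?_
  apply mul_le_mul_of_nonneg_left _ (by linarith)
  exact Real.rpow_le_rpow h0.le hx.2 (by positivity)

theorem FT_lt_top (Φ : Frame k) (h : Fintype.card (Sg k) = finrank ℚ k) (T : ℝ) :
    volume (FT Φ T) ≠ ⊤ := (FT_bounded Φ h T).measure_lt_top.ne

theorem FT_eq_smul (Φ : Frame k) (h : Fintype.card (Sg k) = finrank ℚ k) (T : ℝ) (hT : 0 < T) :
    FT Φ T = (T ^ (1 / finrank ℚ k : ℝ)) • FT Φ 1 := by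
  have ht : 0 < T ^ (1 / finrank ℚ k : ℝ) := Real.rpow_pos_of_pos hT _
  have hpow : (T ^ (1 / finrank ℚ k : ℝ)) ^ finrank ℚ k = T := by
    rw [one_div, Real.rpow_inv_natCast_pow hT.le finrank_pos.ne']
  ext x
  rw [Set.mem_smul_set_iff_inv_smul_mem₀ ht.ne']
  have hprod : ∏ s, ((T ^ (1 / finrank ℚ k : ℝ))⁻¹ • x) s = T⁻¹ * ∏ s, x s := by
    simp only [Pi.smul_apply, smul_eq_mul, Finset.prod_mul_distrib, Finset.prod_const,
      Finset.card_univ, h, inv_pow, hpow]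
  constructor
  · intro hx
    refine ⟨Φ.scal x hx.1 _ (inv_pos.mpr ht), ?_⟩
    show ∏ s, ((T ^ (1 / finrank ℚ k : ℝ))⁻¹ • x) s ≤ 1
    rw [hprod, inv_mul_le_iff₀ hT, mul_one]
    exact hx.2
  · intro hx
    have h2 : ∏ s, ((T ^ (1 / finrank ℚ k : ℝ))⁻¹ • x) s ≤ 1 := hx.2
    rw [hprod, inv_mul_le_iff₀ hT, mul_one] at h2
    refine ⟨?_, h2⟩
    have h3 := Φ.scal _ hx.1 _ ht
    rwa [smul_inv_smul₀ ht.ne'] at h3

theorem volume_smul (h : Fintype.card (Sg k) = finrank ℚ k) (T : ℝ) (hT : 0 < T)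
    (S : Set (Sg k → ℝ)) :
    volume ((T ^ (1 / finrank ℚ k : ℝ)) • S) = ENNReal.ofReal T * volume S := by
  have hpow : (T ^ (1 / finrank ℚ k : ℝ)) ^ finrank ℚ k = T := by
    rw [one_div, Real.rpow_inv_natCast_pow hT.le finrank_pos.ne']
  have h2 := Measure.addHaar_smul (volume : Measure (Sg k → ℝ)) (T ^ (1 / finrank ℚ k : ℝ)) S
  rw [Module.finrank_fintype_fun_eq_card, h, hpow, abs_of_pos hT] at h2
  exact h2

theorem volume_FT (Φ : Frame k) (h : Fintype.card (Sg k) = finrank ℚ k) (T : ℝ) (hT : 0 < T) :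
    (volume (FT Φ T)).toReal = Φ.vF * T := by
  rw [FT_eq_smul Φ h T hT, volume_smul h T hT, ENNReal.toReal_mul, ENNReal.toReal_ofReal hT.le,
    mul_comm]
  rfl

theorem volume_closure_one (Φ : Frame k) : volume (closure (FT Φ 1)) = volume (FT Φ 1) := by
  apply le_antisymm _ (measure_mono subset_closure)
  rw [closure_eq_interior_union_frontier]
  refine (measure_union_le _ _).trans ?_
  have h : volume (frontier (FT Φ 1)) = 0 := Φ.null
  rw [h, add_zero]
  exact measure_mono interior_subset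

theorem volume_closure (Φ : Frame k) (h : Fintype.card (Sg k) = finrank ℚ k) (T : ℝ) (hT : 0 < T) :
    volume (closure (FT Φ T)) = volume (FT Φ T) := by
  have ht : 0 < T ^ (1 / finrank ℚ k : ℝ) := Real.rpow_pos_of_pos hT _
  rw [FT_eq_smul Φ h T hT, closure_smul₀, volume_smul h T hT, volume_smul h T hT,
    volume_closure_one]

theorem countable_units (Φ : Frame k) : Countable (𝓞 k)ˣ := by
  have h1 : Countable (𝓞 k) := Φ.om.equivFun.toEquiv.injective.countable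
  exact Units.val_injective.countable

theorem prod_unit (nor : NorStmt) (hk : IsTotallyReal k) (η : (𝓞 k)ˣ) :
    ∏ s : Sg k, |s ((η : 𝓞 k) : k)| = 1 := by
  have h := ((nor k hk).2.2 (η : 𝓞 k) η.ne_zero).2
  rw [h, Ideal.span_singleton_eq_top.mpr η.isUnit, ← Ideal.one_eq_top, map_one, Nat.cast_one]

theorem vF_pos (nor : NorStmt) (hk : IsTotallyReal k) (Φ : Frame k) : 0 < Φ.vF := by
  have hcard := (nor k hk).1
  have hcount := countable_units Φ
  unfold Frame.vF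
  refine ENNReal.toReal_pos ?_ (FT_lt_top Φ hcard 1)
  intro h0
  have hsub : (Set.pi Set.univ fun _ : Sg k => Set.Ioo (0 : ℝ) 1) ⊆
      ⋃ η : (𝓞 k)ˣ, {x : Sg k → ℝ | lam ((η : 𝓞 k) : k) ^ 2 * x ∈ Φ.F ∩ {x | ∏ s, x s ≤ 1}} := by
    intro x hx
    rw [Set.mem_univ_pi] at hx
    obtain ⟨η, hη⟩ := Φ.exi x (fun s => (hx s).1)
    rw [Set.mem_iUnion]
    refine ⟨η, hη, ?_⟩
    show ∏ s, (lam ((η : 𝓞 k) : k) ^ 2 * x) s ≤ 1
    have h1 : ∏ s, (lam ((η : 𝓞 k) : k) ^ 2 * x) s = (∏ s : Sg k, |s ((η : 𝓞 k) : k)|) ^ 2 *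
        ∏ s, x s := by
      rw [← Finset.prod_pow, ← Finset.prod_mul_distrib]
      refine Finset.prod_congr rfl fun s _ => ?_
      rw [Pi.mul_apply, Pi.pow_apply, sq_abs]
      rfl
    rw [h1, prod_unit nor hk, one_pow, one_mul]
    exact Finset.prod_le_one (fun s _ => (hx s).1.le) (fun s _ => (hx s).2.le)
  have hnull : volume (⋃ η : (𝓞 k)ˣ,
      {x : Sg k → ℝ | lam ((η : 𝓞 k) : k) ^ 2 * x ∈ Φ.F ∩ {x | ∏ s, x s ≤ 1}}) = 0 := by
    rw [measure_iUnion_null_iff]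
    intro η
    apply null_preimage_mul _ _ _ h0
    intro s
    rw [Pi.pow_apply]
    apply pow_ne_zero
    show s ((η : 𝓞 k) : k) ≠ 0
    rw [Ne, map_eq_zero]
    exact fun h => η.ne_zero (RingOfIntegers.ext h)
  have h1 := measure_mono_null hsub hnull
  rw [cube_volume] at h1
  exact one_ne_zero h1

theorem con (nor : NorStmt) : ConStmt := by
  intro k _ _ hk Φ
  have h := (nor k hk).1
  exact ⟨h, D_pos Φ, vF_pos nor hk Φ, one_le_cF Φ h, fun x hx s => cone_cmp Φ h x hx s,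
    fun T hT => ⟨volume_FT Φ h T hT, FT_lt_top Φ h T, volume_closure Φ h T hT,
      FT_bounded Φ h T⟩⟩

end Pool.Agent.LeoK.H91
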